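import Mathlib

namespace GU4

/-- the disjoint union of `n / m` copies of `G` -/
private def copG (m n : ℕ) (hm : 0 < m) (G : SimpleGraph (Fin m)) : SimpleGraph (Fin n) where
  Adj i j := i.val < n / m * m ∧ j.val < n / m * m ∧ i.val / m = j.val / m ∧
    G.Adj ⟨i.val % m, Nat.mod_lt _ hm⟩ ⟨j.val % m, Nat.mod_lt _ hm⟩
  symm := by
    constructor
    rintro i j ⟨h1, h2, h3, h4⟩
    exact ⟨h2, h1, h3.symm, h4.symm⟩
  loopless := ⟨fun i h => G.irrefl h.2.2.2⟩

private def copF (m n : ℕ) (hm : 0 < m) (G : SimpleGraph (Fin m)) : copG m n hm G →g G where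
  toFun i := ⟨i.val % m, Nat.mod_lt _ hm⟩
  map_rel' h := h.2.2.2

private theorem cop_class (m n : ℕ) (hm : 0 < m) (G : SimpleGraph (Fin m)) {u v : Fin n}
    (w : (copG m n hm G).Walk u v) : ∀ x ∈ w.support, x.val / m = u.val / m := by
  induction w with
  | nil => intro x hx; simp at hx; rw [hx]
  | cons h p ih =>
    intro x hx
    rw [SimpleGraph.Walk.support_cons, List.mem_cons] at hx
    rcases hx with rfl | hx
    · rfl
    · rw [ih x hx]; exact h.2.2.1.symm

private theorem cop_inj (m : ℕ) {n : ℕ} {i j : Fin n} (h1 : i.val / m = j.val / m)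
    (h2 : i.val % m = j.val % m) : i = j := by
  apply Fin.ext
  rw [← Nat.div_add_mod i.val m, ← Nat.div_add_mod j.val m, h1, h2]

private theorem cop_inj' (m n : ℕ) (hm : 0 < m) (G : SimpleGraph (Fin m)) {u v : Fin n}
    (w : (copG m n hm G).Walk u v) : ∀ x ∈ w.support, ∀ y ∈ w.support,
    copF m n hm G x = copF m n hm G y → x = y := by
  intro x hx y hy h
  apply cop_inj m
  · rw [cop_class m n hm G w x hx, cop_class m n hm G w y hy]
  · exact congrArg Fin.val h

private theorem cop_cycle (m n : ℕ) (hm : 0 < m) (G : SimpleGraph (Fin m)) {u : Fin n}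
    (w : (copG m n hm G).Walk u u) (hw : w.IsCycle) : (w.map (copF m n hm G)).IsCycle := by
  have hinj := cop_inj' m n hm G w
  refine ⟨⟨⟨?_⟩, ?_⟩, ?_⟩
  · rw [SimpleGraph.Walk.edges_map]
    apply List.Nodup.map_on _ hw.isCircuit.isTrail.edges_nodup
    intro x hx y hy hxy
    induction x using Sym2.ind with
    | _ a b =>
      induction y using Sym2.ind with
      | _ c d =>
        have ha := w.fst_mem_support_of_mem_edges hx
        have hb := w.snd_mem_support_of_mem_edges hx
        have hc := w.fst_mem_support_of_mem_edges hy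
        have hd := w.snd_mem_support_of_mem_edges hy
        rw [Sym2.map_mk, Sym2.map_mk] at hxy
        simp only [Sym2.eq_iff] at hxy ⊢
        rcases hxy with ⟨h1, h2⟩ | ⟨h1, h2⟩
        · exact Or.inl ⟨hinj a ha c hc h1, hinj b hb d hd h2⟩
        · exact Or.inr ⟨hinj a ha d hd h1, hinj b hb c hc h2⟩
  · intro h
    apply hw.isCircuit.ne_nil
    cases w with
    | nil => rfl
    | cons h' p => simp at h
  · rw [SimpleGraph.Walk.support_map, ← List.map_tail]
    apply List.Nodup.map_on _ hw.support_nodup
    intro x hx y hy hxy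
    exact hinj x (List.mem_of_mem_tail hx) y (List.mem_of_mem_tail hy) hxy

/-- disjoint copies: from a graph on `m ≤ n` vertices of minimum degree at least `d` and girth at
least `g` one gets a graph on `n` vertices of girth at least `g` with at least `n d / 4` edges. -/
theorem copies (m n d : ℕ) (g : ℕ∞) (hm : 0 < m) (hmn : m ≤ n) (G : SimpleGraph (Fin m))
    [DecidableRel G.Adj] (hd : ∀ v, d ≤ G.degree v) (hg : g ≤ G.egirth) :
    ∃ H : SimpleGraph (Fin n), g ≤ H.egirth ∧ n * d ≤ 4 * H.edgeSet.ncard := by
  classical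
  refine ⟨copG m n hm G, ?_, ?_⟩
  · rw [SimpleGraph.le_egirth] at hg ⊢
    intro a w hw
    have := hg _ _ (cop_cycle m n hm G w hw)
    rwa [SimpleGraph.Walk.length_map] at this
  · have hdeg : ∀ i : Fin n, i.val < n / m * m → d ≤ (copG m n hm G).degree i := by
      intro i hi
      apply (hd ⟨i.val % m, Nat.mod_lt _ hm⟩).trans
      rw [← SimpleGraph.card_neighborFinset_eq_degree, ← SimpleGraph.card_neighborFinset_eq_degree]
      have hlt : ∀ j : Fin m, i.val / m * m + j.val < n / m * m := by
        intro j
        have h1 : i.val / m < n / m := by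
          rw [Nat.div_lt_iff_lt_mul hm]; exact hi
        have h2 : (i.val / m + 1) * m ≤ n / m * m := Nat.mul_le_mul_right m h1
        have := j.isLt
        rw [Nat.add_mul] at h2
        omega
      have hn : n / m * m ≤ n := Nat.div_mul_le_self n m
      apply Finset.card_le_card_of_injOn
        (fun j : Fin m => (⟨i.val / m * m + j.val, (hlt j).trans_le hn⟩ : Fin n))
      · intro j hj
        have hj' : G.Adj ⟨i.val % m, Nat.mod_lt _ hm⟩ j := by simpa using hj
        have h1 : (i.val / m * m + j.val) / m = i.val / m := by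
          rw [Nat.mul_comm, Nat.mul_add_div hm, Nat.div_eq_of_lt j.isLt, add_zero]
        have h2 : (i.val / m * m + j.val) % m = j.val := by
          rw [Nat.mul_comm, Nat.mul_add_mod, Nat.mod_eq_of_lt j.isLt]
        have h3 : (copG m n hm G).Adj i ⟨i.val / m * m + j.val, (hlt j).trans_le hn⟩ := by
          refine ⟨hi, hlt j, h1.symm, ?_⟩
          have h4 : (⟨(i.val / m * m + j.val) % m, Nat.mod_lt _ hm⟩ : Fin m) = j := Fin.ext h2
          show G.Adj _ (⟨(i.val / m * m + j.val) % m, Nat.mod_lt _ hm⟩ : Fin m)
          rw [h4]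
          exact hj'
        simpa using h3
      · intro j _ j' _ hjj
        have := congrArg Fin.val hjj
        apply Fin.ext
        simp only at this
        omega
    have hsum := (copG m n hm G).sum_degrees_eq_twice_card_edges
    have hcard : (copG m n hm G).edgeFinset.card = (copG m n hm G).edgeSet.ncard := by
      rw [Set.ncard_eq_toFinset_card']
      rfl
    rw [hcard] at hsum
    have h1 : n / m * m * d ≤ ∑ v, (copG m n hm G).degree v := by
      have h2 : ∑ v ∈ Finset.univ.filter (fun i : Fin n => i.val < n / m * m),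
          (copG m n hm G).degree v ≤ ∑ v, (copG m n hm G).degree v :=
        Finset.sum_le_sum_of_subset (Finset.filter_subset _ _)
      refine le_trans ?_ h2
      have h3 : (Finset.univ.filter (fun i : Fin n => i.val < n / m * m)).card = n / m * m := by
        rw [Fin.card_filter_val_lt]
        exact min_eq_right (Nat.div_mul_le_self n m)
      have h4 := Finset.card_nsmul_le_sum
        (Finset.univ.filter (fun i : Fin n => i.val < n / m * m))
        (fun v => (copG m n hm G).degree v) d (fun v hv => hdeg v (by simpa using hv))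
      rw [h3, smul_eq_mul] at h4
      exact h4
    have h5 : n ≤ 2 * (n / m * m) := by
      have h6 : 1 ≤ n / m := by
        rw [Nat.one_le_div_iff hm]; exact hmn
      have h7 : n % m < m := Nat.mod_lt _ hm
      have h8 : m ≤ n / m * m := by
        calc m = 1 * m := (one_mul m).symm
          _ ≤ n / m * m := Nat.mul_le_mul_right m h6
      have h9 := Nat.div_add_mod n m
      rw [Nat.mul_comm] at h9
      omega
    calc n * d ≤ 2 * (n / m * m) * d := Nat.mul_le_mul_right d h5
      _ = 2 * (n / m * m * d) := by ring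
      _ ≤ 2 * ∑ v, (copG m n hm G).degree v := Nat.mul_le_mul_left 2 h1
      _ = 4 * (copG m n hm G).edgeSet.ncard := by rw [hsum]; ring

end GU4
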