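import Mathlib

namespace GU4

/-- A bipartite graph on `A ⊕ B` in which every closed non-backtracking walk
`a 0, b 0, a 1, b 1, …, a g = a 0` has length at least `m` has girth at least `m`. -/
theorem girth_of_closed_walks {A B : Type} (E : A → B → Prop) (m : ℕ)
    (h : ∀ (g : ℕ) (a : ℕ → A) (b : ℕ → B), 1 ≤ g → (∀ i < g, E (a i) (b i)) →
      (∀ i < g, E (a (i + 1)) (b i)) → (∀ i < g, a i ≠ a (i + 1)) →
      (∀ i, i + 1 < g → b i ≠ b (i + 1)) → a g = a 0 → m ≤ 2 * g) :
    (m : ℕ∞) ≤ (SimpleGraph.fromRel (fun x y : A ⊕ B =>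
      ∃ a b, x = Sum.inl a ∧ y = Sum.inr b ∧ E a b)).egirth := by
  classical
  set G := SimpleGraph.fromRel (fun x y : A ⊕ B =>
      ∃ a b, x = Sum.inl a ∧ y = Sum.inr b ∧ E a b) with hG
  have adjl : ∀ {a : A} {y : A ⊕ B}, G.Adj (Sum.inl a) y → ∃ b, y = Sum.inr b ∧ E a b := by
    intro a y hy
    rw [hG, SimpleGraph.fromRel_adj] at hy
    rcases hy.2 with ⟨a', b, h1, h2, h3⟩ | ⟨a', b, h1, h2, h3⟩
    · exact ⟨b, h2, by rwa [Sum.inl.inj h1]⟩
    · cases h2
  have adjr : ∀ {b : B} {y : A ⊕ B}, G.Adj (Sum.inr b) y → ∃ a, y = Sum.inl a ∧ E a b := by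
    intro b y hy
    rw [hG, SimpleGraph.fromRel_adj] at hy
    rcases hy.2 with ⟨a', b', h1, h2, h3⟩ | ⟨a', b', h1, h2, h3⟩
    · cases h1
    · exact ⟨a', h1, by rwa [Sum.inr.inj h2]⟩
  -- cycles which start on the left side
  have main : ∀ (a₀ : A) (c : G.Walk (Sum.inl a₀) (Sum.inl a₀)), c.IsCycle → m ≤ c.length := by
    intro a₀ c hc
    have h3 := hc.three_le_length
    have side : ∀ i, i ≤ c.length → (c.getVert i).isLeft = decide (Even i) := by
      intro i
      induction i with
      | zero => intro _; simp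
      | succ i ih =>
        intro hi
        have h1 := ih (by omega)
        have hadj := c.adj_getVert_succ (i := i) (by omega)
        rcases hv : c.getVert i with a | b
        · rw [hv] at h1 hadj
          obtain ⟨b, hb, _⟩ := adjl hadj
          rw [hb]
          simp only [Sum.isLeft_inl] at h1
          have : Even i := by simpa using h1.symm
          simp [Nat.even_add_one, this]
        · rw [hv] at h1 hadj
          obtain ⟨a, ha, _⟩ := adjr hadj
          rw [ha]
          simp only [Sum.isLeft_inr] at h1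
          have : ¬ Even i := by simpa using h1.symm
          simp [Nat.even_add_one, this]
    have hlen : Even c.length := by
      have := side c.length le_rfl
      simpa using this.symm
    obtain ⟨g, hg⟩ := hlen
    have hg2 : c.length = 2 * g := by omega
    -- the vertices
    have hL : ∀ i, i ≤ g → ∃ a, c.getVert (2 * i) = Sum.inl a := by
      intro i hi
      have := side (2 * i) (by omega)
      rw [← Sum.isLeft_iff]
      simpa using this
    have hR : ∀ i, i < g → ∃ b, c.getVert (2 * i + 1) = Sum.inr b := by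
      intro i hi
      have := side (2 * i + 1) (by omega)
      rw [← Sum.isRight_iff, ← Sum.isLeft_eq_false]
      simpa [Nat.even_add_one] using this
    obtain ⟨b₀, hb₀⟩ := hR 0 (by omega)
    let a : ℕ → A := fun i => Sum.elim id (fun _ => a₀) (c.getVert (2 * i))
    let b : ℕ → B := fun i => Sum.elim (fun _ => b₀) id (c.getVert (2 * i + 1))
    have ha : ∀ i, i ≤ g → c.getVert (2 * i) = Sum.inl (a i) := by
      intro i hi
      obtain ⟨x, hx⟩ := hL i hi
      simp [a, hx]
    have hb : ∀ i, i < g → c.getVert (2 * i + 1) = Sum.inr (b i) := by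
      intro i hi
      obtain ⟨x, hx⟩ := hR i hi
      simp [b, hx]
    have key := h g a b (by omega) ?_ ?_ ?_ ?_ ?_
    · omega
    · intro i hi
      have hadj := c.adj_getVert_succ (i := 2 * i) (by omega)
      rw [ha i hi.le, hb i hi] at hadj
      obtain ⟨y, hy, hE⟩ := adjl hadj
      rwa [Sum.inr.inj hy]
    · intro i hi
      have hadj := c.adj_getVert_succ (i := 2 * i + 1) (by omega)
      rw [hb i hi, show 2 * i + 1 + 1 = 2 * (i + 1) by ring, ha (i + 1) (by omega)] at hadj
      obtain ⟨y, hy, hE⟩ := adjr hadj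
      rwa [Sum.inl.inj hy]
    · intro i hi he
      have h1 : c.getVert (2 * i) = c.getVert (2 * (i + 1)) := by
        rw [ha i hi.le, ha (i + 1) (by omega), he]
      rcases Nat.eq_zero_or_pos i with rfl | hpos
      · have := hc.getVert_injOn' (x₁ := 2 * 0) (x₂ := 2 * (0 + 1))
          (by show 2 * 0 ≤ c.length - 1; omega) (by show 2 * (0 + 1) ≤ c.length - 1; omega) h1
        omega
      · have := hc.getVert_injOn (x₁ := 2 * i) (x₂ := 2 * (i + 1))
          (by show 1 ≤ 2 * i ∧ 2 * i ≤ c.length; omega)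
          (by show 1 ≤ 2 * (i + 1) ∧ 2 * (i + 1) ≤ c.length; omega) h1
        omega
    · intro i hi he
      have h1 : c.getVert (2 * i + 1) = c.getVert (2 * (i + 1) + 1) := by
        rw [hb i (by omega), hb (i + 1) hi, he]
      have := hc.getVert_injOn (x₁ := 2 * i + 1) (x₂ := 2 * (i + 1) + 1)
        (by show 1 ≤ 2 * i + 1 ∧ 2 * i + 1 ≤ c.length; omega)
        (by show 1 ≤ 2 * (i + 1) + 1 ∧ 2 * (i + 1) + 1 ≤ c.length; omega) h1
      omega
    · have h1 := ha g le_rfl
      have h0 := ha 0 (Nat.zero_le _)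
      rw [← hg2, SimpleGraph.Walk.getVert_length] at h1
      rw [mul_zero, SimpleGraph.Walk.getVert_zero] at h0
      rw [← Sum.inl.inj h1, ← Sum.inl.inj h0]
  rw [SimpleGraph.le_egirth]
  rintro (a₀ | b₀) c hc
  · exact_mod_cast main a₀ c hc
  · have hadj := c.adj_getVert_succ (i := 0) (by have := hc.three_le_length; omega)
    rw [SimpleGraph.Walk.getVert_zero] at hadj
    obtain ⟨a, ha, _⟩ := adjr hadj
    have hmem : Sum.inl a ∈ c.support := by
      rw [← ha]
      exact c.getVert_mem_support _
    have h1 := main a (c.rotate (Sum.inl a) hmem)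
      ((SimpleGraph.Walk.isCycle_rotate hmem).2 hc)
    rw [SimpleGraph.Walk.length_rotate] at h1
    exact_mod_cast h1

end GU4
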